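import Pool.Agent.Run7.h820.UM.Stm

/-! # Project UM (helper820): piece REC, the recursion -/

set_option autoImplicit false
open Complex Filter Topology Set Metric MeasureTheory

namespace Run7.h918.UM

open Q90.SM (IsSig marshall pmean circ FF)
open Run7.h820.UM

/-- States of the recursion. -/
structure Sta where
  ψ : ℂ → ℂ
  h : ℂ → ℂ
  η : ℝ
  sig : IsSig ψ h
  pos : 0 < η
  le : η ≤ 1

/-- The relation between two successive states. -/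
def Rel (g : ℂ → ℂ) (M k : ℕ) (s s' : Sta) : Prop :=
  s'.η ≤ s.η / 2 ∧
  (∀ z : ℂ, 1 + s.η ≤ ‖z‖ → ‖s'.h z - s.h z‖ ≤ s.η ∧ ‖s'.ψ z - s.ψ z‖ ≤ s.η * ‖z‖) ∧
  ∃ (N n : ℕ) (C : ℝ), 1 ≤ N ∧ 0 ≤ C ∧ (k : ℝ) ≤ n ∧ (k : ℝ) * (C + 3 + Real.log N) ≤ n ∧
    1 + s'.η ≤ Real.exp (1 / (N * (M : ℝ) ^ n)) ∧
    ∀ z : ℂ, 1 < ‖z‖ → ‖s'.h z - g (z ^ N)‖ ≤ C

lemma step (hSTG : S_STG) {φ g A : ℂ → ℂ} {B : ℝ} {M : ℕ} (hT : Tg φ g A B) (hM : 2 ≤ M) (k : ℕ)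
    (s : Sta) : ∃ s' : Sta, Rel g M k s s' := by
  obtain ⟨ψ', h', N, C, hs, hN, hC, hcl, hg⟩ := hSTG s.ψ s.h φ g A B s.η s.sig hT s.pos
  obtain ⟨n, hn⟩ := exists_nat_ge (max (k : ℝ) ((k : ℝ) * (C + 3 + Real.log N)))
  have hN0 : (0 : ℝ) < N := by exact_mod_cast hN
  have hM0 : (0 : ℝ) < M := by exact_mod_cast (by omega : 0 < M)
  have hpos : 0 < 1 / ((N : ℝ) * (M : ℝ) ^ n) := by positivity
  have he : 1 < Real.exp (1 / ((N : ℝ) * (M : ℝ) ^ n)) := Real.one_lt_exp_iff.2 hpos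
  refine ⟨⟨ψ', h', min (s.η / 2) (Real.exp (1 / ((N : ℝ) * (M : ℝ) ^ n)) - 1), hs, ?_, ?_⟩, ?_⟩
  · exact lt_min (half_pos s.pos) (sub_pos.2 he)
  · exact (min_le_left _ _).trans (by linarith [s.le, s.pos])
  · refine ⟨min_le_left _ _, hcl, N, n, C, hN, hC, (le_max_left _ _).trans hn,
      (le_max_right _ _).trans hn, ?_, hg⟩
    have := min_le_right (s.η / 2) (Real.exp (1 / ((N : ℝ) * (M : ℝ) ^ n)) - 1)
    change 1 + min (s.η / 2) (Real.exp (1 / ((N : ℝ) * (M : ℝ) ^ n)) - 1) ≤ _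
    linarith

theorem t_REC : S_STG → S_LIM → S_REC := by
  intro hSTG hLIM ψ₁ h₁ δ hsig hδ φ g A B M hT hM
  have hstep : ∀ (k : ℕ) (s : Sta), ∃ s' : Sta, Rel (g k.unpair.1) (M k.unpair.1) k s s' :=
    fun k s => step hSTG (hT _) (hM _) k s
  choose nxt hnxt using hstep
  have hm1 : 0 < min (δ / 2) 1 := lt_min (half_pos hδ) one_pos
  let s0 : Sta := ⟨ψ₁, h₁, min (δ / 2) 1, hsig, hm1, min_le_right _ _⟩
  let S : ℕ → Sta := fun k => Nat.rec s0 (fun k s => nxt k s) k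
  have hS0 : S 0 = s0 := rfl
  have hSs : ∀ k, S (k + 1) = nxt k (S k) := fun k => rfl
  have hR : ∀ k, Rel (g k.unpair.1) (M k.unpair.1) k (S k) (S (k + 1)) := fun k => by
    rw [hSs]; exact hnxt k (S k)
  obtain ⟨ψ₀, h₀, hs, hlim⟩ := hLIM (fun k => (S k).ψ) (fun k => (S k).h) (fun k => (S k).η)
    (fun k => (S k).sig) (fun k => (S k).pos) (fun k => (hR k).1) (S 0).le (fun k => (hR k).2.1)
  refine ⟨ψ₀, h₀, hs, ?_, ?_⟩
  · intro z hz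
    have h1 : (S 0).η ≤ δ / 2 := min_le_left _ _
    have h2 := hlim 0 z (by change 1 + (S 0).η ≤ ‖z‖; linarith)
    change ‖h₀ z - h₁ z‖ ≤ 2 * (S 0).η at h2
    linarith
  · intro i K
    obtain ⟨m, hm⟩ := exists_nat_ge K
    obtain ⟨k, hk, hkm⟩ : ∃ k : ℕ, k.unpair.1 = i ∧ m ≤ k :=
      ⟨Nat.pair i m, by simp, Nat.right_le_pair i m⟩
    have hKk : K ≤ k := hm.trans (by exact_mod_cast hkm)
    obtain ⟨-, -, N, n, C, hN, hC, hkn, hkn2, hη, hg⟩ := hR k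
    rw [hk] at hη hg
    have hlog : 0 ≤ Real.log N := Real.log_natCast_nonneg N
    refine ⟨N, n, C + 2, hN, by linarith, hKk.trans hkn, ?_, ?_⟩
    · have h1 : C + 2 + 1 + Real.log N = C + 3 + Real.log N := by ring
      rw [h1]
      exact (mul_le_mul_of_nonneg_right hKk (by linarith)).trans hkn2
    · intro z hz
      have h1 := hlim (k + 1) z (by rw [hz]; exact hη)
      have h2 : 1 < ‖z‖ := by linarith [(S (k + 1)).pos]
      have h3 := hg z h2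
      have h4 := (S (k + 1)).le
      change ‖h₀ z - (S (k + 1)).h z‖ ≤ 2 * (S (k + 1)).η at h1
      calc ‖h₀ z - g i (z ^ N)‖ = ‖(h₀ z - (S (k + 1)).h z) + ((S (k + 1)).h z - g i (z ^ N))‖ := by
            congr 1; ring
        _ ≤ ‖h₀ z - (S (k + 1)).h z‖ + ‖(S (k + 1)).h z - g i (z ^ N)‖ := norm_add_le _ _
        _ ≤ C + 2 := by linarith

end Run7.h918.UM
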